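import Pool.Agent.K3h22.E8.Stm8

/-! Brick SUPP8 of project E8 (helper22): two dominant monomials of a polynomial relation, for an
injective `κ : Fin r → Fin n` and any ring of coefficients (adapted from `Pool.Agent.K3h49.ET.SUPP`). -/

set_option autoImplicit false

namespace Pool.Agent.K3h60.E8

open Pool.Agent.K3h22.EX Pool.Agent.K3h22.E8 MvPolynomial

variable {n r : ℕ} {κ : Fin r → Fin n}

/-- extension of exponents by zero -/
noncomputable def emb (κ : Fin r → Fin n) (e : Fin r →₀ ℕ) : Fin n →₀ ℕ :=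
  e.mapDomain κ

theorem emb_notMem (e : Fin r →₀ ℕ) {i : Fin n} (hi : ∀ b, κ b ≠ i) : emb κ e i = 0 :=
  Finsupp.mapDomain_of_notMem_range _ _ (by
    rintro ⟨b, hb⟩
    exact hi b hb)

theorem pr_add (a b : Fin n →₀ ℕ) (w : Fin n → ℝ) : pr (a + b) w = pr a w + pr b w := by
  simp only [pr, ← Finset.sum_add_distrib, Finsupp.add_apply, Nat.cast_add, add_mul]

theorem pr_smul (j : ℕ) (a : Fin n →₀ ℕ) (w : Fin n → ℝ) : pr (j • a) w = j * pr a w := by
  simp only [pr, Finset.mul_sum, Finsupp.smul_apply, smul_eq_mul, Nat.cast_mul, mul_assoc]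

theorem pr_emb (e : Fin r →₀ ℕ) (w : Fin n → ℝ) :
    pr (emb κ e) w = ∑ b, (e b : ℝ) * w (κ b) := by
  have h1 : pr (emb κ e) w = (emb κ e).sum fun i c => (c : ℝ) * w i := by
    rw [Finsupp.sum_fintype _ _ (by simp)]
    rfl
  have h2 : ∑ b, (e b : ℝ) * w (κ b) = e.sum fun b c => (c : ℝ) * w (κ b) := by
    rw [Finsupp.sum_fintype _ _ (by simp)]
  rw [h1, h2, emb, Finsupp.sum_mapDomain_index (by simp) (by intros; push_cast; ring)]

theorem eq_of_pr {w : Fin n → ℝ}
    (hw : ∀ m : Fin r → ℤ, m ≠ 0 → ∑ b, (m b : ℝ) * w (κ b) ≠ 0)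
    {e e' : Fin r →₀ ℕ} (h : ∑ b, (e b : ℝ) * w (κ b) = ∑ b, (e' b : ℝ) * w (κ b)) : e = e' := by
  by_contra hne
  refine hw (fun b => (e b : ℤ) - e' b) ?_ ?_
  · intro h0
    refine hne (Finsupp.ext fun b => ?_)
    have := congrFun h0 b
    simp only [Pi.zero_apply] at this
    omega
  · have : ∑ b, (((e b : ℤ) - e' b : ℤ) : ℝ) * w (κ b) =
        ∑ b, (e b : ℝ) * w (κ b) - ∑ b, (e' b : ℝ) * w (κ b) := by
      rw [← Finset.sum_sub_distrib]
      refine Finset.sum_congr rfl fun b _ => ?_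
      push_cast
      ring
    rw [this, h, sub_self]

variable {A : Type} [CommRing A]

/-- the polynomial `∑ g_j y^{j μ}` -/
noncomputable def ev (κ : Fin r → Fin n) (g : Polynomial (MvPolynomial (Fin r) A))
    (μ : Fin n →₀ ℕ) : MvPolynomial (Fin n) A :=
  g.eval₂ (rename (R := A) κ).toRingHom (monomial μ 1)

theorem ev_eq (g : Polynomial (MvPolynomial (Fin r) A)) (μ : Fin n →₀ ℕ) :
    ev κ g μ = ∑ j ∈ g.support, rename κ (g.coeff j) * monomial (j • μ) 1 := by
  rw [ev, Polynomial.eval₂_eq_sum, Polynomial.sum_def]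
  refine Finset.sum_congr rfl fun j _ => ?_
  rw [monomial_pow, one_pow]
  rfl

theorem term_ne {p : MvPolynomial (Fin r) A} {ν E : Fin n →₀ ℕ}
    (h : coeff E (rename κ p * monomial ν 1) ≠ 0) :
    ∃ e ∈ p.support, E = emb κ e + ν := by
  rw [coeff_mul_monomial'] at h
  split_ifs at h with h1
  · rw [mul_one] at h
    obtain ⟨e, he, he'⟩ := coeff_rename_ne_zero _ _ _ h
    refine ⟨e, mem_support_iff.2 he', ?_⟩
    rw [emb, he, tsub_add_cancel_of_le h1]
  · exact absurd rfl h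

theorem coeff_ev_ne {g : Polynomial (MvPolynomial (Fin r) A)} {μ E : Fin n →₀ ℕ}
    (h : coeff E (ev κ g μ) ≠ 0) :
    ∃ j ∈ g.support, ∃ e ∈ (g.coeff j).support, E = emb κ e + j • μ := by
  rw [ev_eq, coeff_sum] at h
  obtain ⟨j, hj, hj'⟩ := Finset.exists_ne_zero_of_sum_ne_zero h
  exact ⟨j, hj, term_ne hj'⟩

theorem coeff_ev (hκ : Function.Injective κ) {g : Polynomial (MvPolynomial (Fin r) A)}
    {μ : Fin n →₀ ℕ} (hμ : ∀ b, μ (κ b) = 0) (hμ0 : μ ≠ 0) (j : ℕ) (e : Fin r →₀ ℕ) :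
    coeff (emb κ e + j • μ) (ev κ g μ) = coeff e (g.coeff j) := by
  obtain ⟨i, hi⟩ : ∃ i, μ i ≠ 0 := by
    by_contra hcon
    push Not at hcon
    exact hμ0 (Finsupp.ext hcon)
  have hiB : ∀ b, κ b ≠ i := fun b h => hi (h ▸ hμ b)
  rw [ev_eq, coeff_sum]
  have h1 : ∀ j' ∈ g.support, j' ≠ j → coeff (emb κ e + j • μ)
      (rename κ (g.coeff j') * monomial (j' • μ) 1) = 0 := by
    intro j' _ hne
    by_contra hcon
    obtain ⟨e', _, he'⟩ := term_ne hcon
    have h2 := DFunLike.congr_fun he' i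
    simp only [Finsupp.add_apply, emb_notMem _ hiB, zero_add, Finsupp.smul_apply,
      smul_eq_mul] at h2
    exact hne (Nat.eq_of_mul_eq_mul_right (Nat.pos_of_ne_zero hi) h2).symm
  have h3 : coeff (emb κ e + j • μ) (rename κ (g.coeff j) * monomial (j • μ) 1) =
      coeff e (g.coeff j) := by
    rw [coeff_mul_monomial, mul_one, emb, coeff_rename_mapDomain _ hκ]
  by_cases hj : j ∈ g.support
  · rw [Finset.sum_eq_single_of_mem j hj h1, h3]
  · rw [Finset.sum_eq_zero fun j' hj' => h1 j' hj' fun h => hj (h ▸ hj')]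
    rw [Polynomial.notMem_support_iff.1 hj, coeff_zero]

theorem t_SUPP8 : S_SUPP8 := by
  intro A _ n r κ hκ
  refine ⟨fun g μ hμ hμ0 hg => ⟨?_, fun w hw ht => ?_⟩, fun G w hw ht => ?_⟩
  · change ev κ g μ ≠ 0
    intro h0
    obtain ⟨j, hj⟩ := Polynomial.support_nonempty.2 hg
    have hj' : g.coeff j ≠ 0 := Polynomial.mem_support_iff.1 hj
    obtain ⟨e, he⟩ := ne_zero_iff.1 hj'
    have h1 := coeff_ev hκ (g := g) hμ hμ0 j e
    rw [h0, coeff_zero] at h1
    exact he h1.symm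
  · change Twice (ev κ g μ).support w at ht
    obtain ⟨a, ha, b, hb, hab, hpr, hmax⟩ := ht
    obtain ⟨j, hj, e, he, rfl⟩ := coeff_ev_ne (mem_support_iff.1 ha)
    obtain ⟨k, hk, e', he', rfl⟩ := coeff_ev_ne (mem_support_iff.1 hb)
    have hle : ∀ l ∈ g.support, ∀ e'' ∈ (g.coeff l).support,
        ∑ b, (e'' b : ℝ) * w (κ b) + l * pr μ w ≤ ∑ b, (e b : ℝ) * w (κ b) + j * pr μ w := by
      intro l _ e'' he''
      have h1 : emb κ e'' + l • μ ∈ (ev κ g μ).support := by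
        rw [mem_support_iff, coeff_ev hκ hμ hμ0]
        exact mem_support_iff.1 he''
      have h2 := hmax _ h1
      simpa only [pr_add, pr_smul, pr_emb] using h2
    simp only [pr_add, pr_smul, pr_emb] at hpr
    rcases lt_trichotomy j k with h | h | h
    · exact ⟨j, hj, k, hk, h, e, he, e', he', hpr, hle⟩
    · subst h
      have h1 : e = e' := eq_of_pr hw (by linarith)
      exact absurd (by rw [h1]) hab
    · exact ⟨k, hk, j, hj, h, e', he', e, he, hpr.symm, fun l hl e'' he'' => by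
        rw [← hpr]
        exact hle l hl e'' he''⟩
  · obtain ⟨a, ha, b, hb, hab, hpr, _⟩ := ht
    obtain ⟨e, he, _⟩ := coeff_rename_ne_zero _ _ _ (mem_support_iff.1 ha)
    obtain ⟨e', he', _⟩ := coeff_rename_ne_zero _ _ _ (mem_support_iff.1 hb)
    subst he he'
    have h1 : pr (emb κ e) w = pr (emb κ e') w := hpr
    rw [pr_emb, pr_emb] at h1
    exact hab (by rw [eq_of_pr hw h1])

end Pool.Agent.K3h60.E8
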